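import Mathlib

open MvPolynomial

namespace Pool.Agent.Lib.MP_563419_an

/-- A closed algebraic subset of `ℂ^σ`: the common zero set of a set of polynomials. -/
def IsAlgebraicSet {σ : Type} (Z : Set (σ → ℂ)) : Prop :=
  ∃ S : Set (MvPolynomial σ ℂ), Z = {x | ∀ f ∈ S, eval x f = 0}

/-- The ring of regular functions of a closed algebraic subset of `ℂ^σ`: polynomials modulo
the ideal of all polynomials that vanish on `Z`. -/
abbrev CoordRing {σ : Type} (Z : Set (σ → ℂ)) : Type :=
  MvPolynomial σ ℂ ⧸ vanishingIdeal ℂ Z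

/-- `Z ⊆ ℂ^σ` is an affine-algebraic manifold: closed algebraic, irreducible and smooth. -/
structure IsAffineManifold {σ : Type} (Z : Set (σ → ℂ)) : Prop where
  algebraic : IsAlgebraicSet Z
  irreducible : IsDomain (CoordRing Z)
  smooth : Algebra.Smooth ℂ (CoordRing Z)

section Derivations

variable {A : Type} [CommRing A] [Algebra ℂ A]

/-- Locally nilpotent derivations. -/
def IsLND (Θ : Derivation ℂ A A) : Prop := ∀ f : A, ∃ k : ℕ, 1 ≤ k ∧ (⇑Θ)^[k] f = 0

/-- Overshear fields: `f Θ` with `Θ` an LND and `Θ² f = 0`. -/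
def IsOvershear (V : Derivation ℂ A A) : Prop :=
  ∃ (Θ : Derivation ℂ A A) (f : A), IsLND Θ ∧ Θ (Θ f) = 0 ∧ V = f • Θ

variable (A) in
/-- The Lie algebra generated by all overshear fields. -/
noncomputable def overshearLie : LieSubalgebra ℂ (Derivation ℂ A A) :=
  LieSubalgebra.lieSpan ℂ (Derivation ℂ A A) {V | IsOvershear V}

end Derivations

/-- The algebraic overshear density property: the Lie algebra generated by all algebraic overshear
vector fields is the Lie algebra of all algebraic vector fields. -/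
def HasAOSDP {σ : Type} (Z : Set (σ → ℂ)) : Prop := overshearLie (CoordRing Z) = ⊤

/-- `X` is a (closed algebraic) subvariety of `Z`. -/
def IsSubvariety {σ : Type} (X Z : Set (σ → ℂ)) : Prop := IsAlgebraicSet X ∧ X ⊆ Z

/-- A map from `X ⊆ ℂ^σ` to `ℂ^σ` is regular if it is the restriction of a polynomial map. -/
def IsRegularMap {σ : Type} {X : Set (σ → ℂ)} (φ : X → (σ → ℂ)) : Prop :=
  ∃ F : σ → MvPolynomial σ ℂ, ∀ x : X, ∀ i, φ x i = eval (x : σ → ℂ) (F i)

/-- An isomorphism of closed algebraic subsets: a bijection which is regular in both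
directions. -/
def IsAlgebraicIso {σ : Type} {X Y : Set (σ → ℂ)} (φ : X ≃ Y) : Prop :=
  IsRegularMap (fun x : X => ((φ x : Y) : σ → ℂ)) ∧
    IsRegularMap (fun y : Y => ((φ.symm y : X) : σ → ℂ))

/-- A map from `Z ⊆ ℂ^σ` to `ℂ^σ` is holomorphic if locally it is the restriction of a
holomorphic map defined on an open subset of `ℂ^σ`. -/
def IsHolomorphicMap {σ : Type} [Fintype σ] {Z : Set (σ → ℂ)} (Φ : Z → (σ → ℂ)) : Prop :=
  ∀ z : Z, ∃ U : Set (σ → ℂ), IsOpen U ∧ (z : σ → ℂ) ∈ U ∧
    ∃ F : (σ → ℂ) → (σ → ℂ), DifferentiableOn ℂ F U ∧ ∀ x : Z, (x : σ → ℂ) ∈ U → Φ x = F x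

/-- A holomorphic automorphism of `Z`. -/
def IsHolomorphicAut {σ : Type} [Fintype σ] {Z : Set (σ → ℂ)} (Φ : Z ≃ Z) : Prop :=
  IsHolomorphicMap (fun x : Z => ((Φ x : Z) : σ → ℂ)) ∧
    IsHolomorphicMap (fun x : Z => ((Φ.symm x : Z) : σ → ℂ))

/-- `Φ : Z → Z` extends `φ : X → Y`. -/
def Extends {σ : Type} {X Y Z : Set (σ → ℂ)} (Φ : Z → Z) (φ : X → Y) : Prop :=
  ∀ (x : X) (z : Z), (z : σ → ℂ) = x → ((Φ z : Z) : σ → ℂ) = (φ x : Y)

lemma IsHolomorphicMap.continuous {σ : Type} [Fintype σ] {Z : Set (σ → ℂ)} {Φ : Z → (σ → ℂ)}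
    (h : IsHolomorphicMap Φ) : Continuous Φ := by
  rw [continuous_iff_continuousAt]
  intro z
  obtain ⟨U, hU, hz, F, hF, hΦ⟩ := h z
  have h1 : ContinuousAt F z := (hF.differentiableAt (hU.mem_nhds hz)).continuousAt
  have h2 : ContinuousAt (fun x : Z => F x) z := h1.comp continuous_subtype_val.continuousAt
  refine h2.congr ?_
  have h3 : ∀ᶠ x : Z in nhds z, (x : σ → ℂ) ∈ U :=
    continuous_subtype_val.continuousAt.eventually (hU.mem_nhds hz)
  filter_upwards [h3] with x hx
  exact (hΦ x hx).symm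

section Lie

variable {A : Type} [CommRing A] [Algebra ℂ A]

lemma mem_of_overshear {Θ : Derivation ℂ A A} {f : A} (h : IsLND Θ) (hf : Θ (Θ f) = 0) :
    f • Θ ∈ overshearLie A :=
  LieSubalgebra.subset_lieSpan ⟨Θ, f, h, hf, rfl⟩

lemma overshear_identity (D Θ : Derivation ℂ A A) (u α β : A) (h3 : Θ u = 0) :
    ⁅(u * α) • D, β • Θ⁆ - ⁅α • D, (u * β) • Θ⁆ = -((α * β * D u) • Θ) := by
  ext a
  simp only [Derivation.coe_sub, Pi.sub_apply, Derivation.commutator_apply, Derivation.coe_neg,
    Pi.neg_apply, Derivation.coe_smul, Pi.smul_apply, smul_eq_mul, Derivation.leibniz, h3]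
  ring

lemma mem_key {D Θ : Derivation ℂ A A} (hD : IsLND D) (hΘ : IsLND Θ) {u α β : A}
    (h1 : D α = 0) (h2 : Θ β = 0) (h3 : Θ u = 0) (h4 : D (D u) = 0) :
    (α * β * D u) • Θ ∈ overshearLie A := by
  have e1 : (u * α) • D ∈ overshearLie A := by
    refine mem_of_overshear hD ?_
    simp [Derivation.leibniz, h1, h4]
  have e2 : β • Θ ∈ overshearLie A := mem_of_overshear hΘ (by simp [h2])
  have e3 : α • D ∈ overshearLie A := mem_of_overshear hD (by simp [h1])
  have e4 : (u * β) • Θ ∈ overshearLie A := by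
    refine mem_of_overshear hΘ ?_
    simp [Derivation.leibniz, h2, h3]
  have h := sub_mem ((overshearLie A).lie_mem e1 e2) ((overshearLie A).lie_mem e3 e4)
  rw [overshear_identity D Θ u α β h3] at h
  simpa using neg_mem h

lemma commutator_smul (D Θ : Derivation ℂ A A) (g h : A) (hc : ⁅Θ, D⁆ = 0) :
    ⁅g • Θ, h • D⁆ = (g * Θ h) • D - (h * D g) • Θ := by
  ext a
  have hc' : Θ (D a) - D (Θ a) = 0 := by
    have := congrArg (fun E : Derivation ℂ A A => E a) hc
    simpa [Derivation.commutator_apply] using this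
  simp only [Derivation.coe_sub, Pi.sub_apply, Derivation.commutator_apply,
    Derivation.coe_smul, Pi.smul_apply, smul_eq_mul, Derivation.leibniz]
  linear_combination (g * h) * hc'

lemma commutator_smul_left (D Θ : Derivation ℂ A A) (g : A) :
    ⁅g • Θ, D⁆ = g • ⁅Θ, D⁆ - (D g) • Θ := by
  ext a
  simp only [Derivation.coe_sub, Pi.sub_apply, Derivation.commutator_apply,
    Derivation.coe_smul, Pi.smul_apply, smul_eq_mul, Derivation.leibniz]
  ring

lemma smul_mul_mem {D Θ : Derivation ℂ A A} (hc : ⁅Θ, D⁆ = 0)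
    (hΘ : ∀ g : A, g • Θ ∈ overshearLie A) (g h : A) (hD : h • D ∈ overshearLie A) :
    (g * Θ h) • D ∈ overshearLie A := by
  have h1 := (overshearLie A).lie_mem (hΘ g) hD
  rw [commutator_smul _ _ _ _ hc] at h1
  have h2 := add_mem h1 (hΘ (h * D g))
  rwa [sub_add_cancel] at h2

lemma smul_commutator_mem {D Θ : Derivation ℂ A A} (hD : D ∈ overshearLie A)
    (hΘ : ∀ g : A, g • Θ ∈ overshearLie A) (g : A) :
    g • ⁅Θ, D⁆ ∈ overshearLie A := by
  have h1 := (overshearLie A).lie_mem (hΘ g) hD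
  rw [commutator_smul_left] at h1
  have h2 := add_mem h1 (hΘ (D g))
  rwa [sub_add_cancel] at h2

lemma add_smul_mem {D : Derivation ℂ A A} {a b : A} (ha : a • D ∈ overshearLie A)
    (hb : b • D ∈ overshearLie A) : (a + b) • D ∈ overshearLie A := by
  rw [add_smul]; exact add_mem ha hb

lemma one_smul_mem {D : Derivation ℂ A A} (h : ∀ g : A, g • D ∈ overshearLie A) :
    D ∈ overshearLie A := by
  have := h 1
  rwa [one_smul] at this

lemma decomp_mem {ι : Type} [Fintype ι] {D D1 D2 D3 : Derivation ℂ A A}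
    {P : ι → Derivation ℂ A A} {k1 k2 k3 : A} {c : ι → A}
    (h1 : ∀ g : A, g • D1 ∈ overshearLie A) (h2 : ∀ g : A, g • D2 ∈ overshearLie A)
    (h3 : ∀ g : A, g • D3 ∈ overshearLie A) (hP : ∀ j, ∀ g : A, g • P j ∈ overshearLie A)
    (h : ∀ a, D a = k1 * D1 a + k2 * D2 a + k3 * D3 a + ∑ j, c j * P j a) :
    D ∈ overshearLie A := by
  have e : D = k1 • D1 + k2 • D2 + k3 • D3 + ∑ j, c j • P j := by
    ext a
    rw [h a]
    simp only [Derivation.coe_add, Pi.add_apply, Derivation.coe_smul, Pi.smul_apply, smul_eq_mul,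
      add_right_inj]
    have : ∀ (s : Finset ι), (∑ j ∈ s, c j • P j) a = ∑ j ∈ s, c j * P j a := by
      intro s
      classical
      induction s using Finset.induction_on with
      | empty => simp
      | insert i s hi ih =>
        rw [Finset.sum_insert hi, Finset.sum_insert hi, Derivation.add_apply, ih]
        rfl
    exact (this Finset.univ).symm
  rw [e]
  exact add_mem (add_mem (add_mem (h1 _) (h2 _)) (h3 _)) (sum_mem fun j _ => hP j _)

lemma iterate_zero_of_le (D : Derivation ℂ A A) {f : A} {m n : ℕ} (h : (⇑D)^[m] f = 0)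
    (hmn : m ≤ n) : (⇑D)^[n] f = 0 := by
  obtain ⟨k, rfl⟩ := Nat.exists_eq_add_of_le hmn
  rw [add_comm, Function.iterate_add_apply, h]
  clear h hmn
  induction k with
  | zero => rfl
  | succ k ih => rw [Function.iterate_succ_apply, map_zero, ih]

lemma iterate_add_elem (D : Derivation ℂ A A) (f g : A) (n : ℕ) :
    (⇑D)^[n] (f + g) = (⇑D)^[n] f + (⇑D)^[n] g := by
  induction n generalizing f g with
  | zero => rfl
  | succ n ih => rw [Function.iterate_succ_apply, Function.iterate_succ_apply,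
      Function.iterate_succ_apply, map_add, ih]

lemma iterate_mul_zero (D : Derivation ℂ A A) : ∀ (m n : ℕ) (f g : A), (⇑D)^[m] f = 0 →
    (⇑D)^[n] g = 0 → (⇑D)^[m + n] (f * g) = 0 := by
  intro m
  induction m with
  | zero =>
    intro n f g hf hg
    have hf' : f = 0 := hf
    rw [hf', zero_mul]
    exact iterate_zero_of_le D (m := 0) rfl (Nat.zero_le _)
  | succ m ihm =>
    intro n
    induction n with
    | zero =>
      intro f g hf hg
      have hg' : g = 0 := hg
      rw [hg', mul_zero]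
      exact iterate_zero_of_le D (m := 0) rfl (Nat.zero_le _)
    | succ n ihn =>
      intro f g hf hg
      have e : m + 1 + (n + 1) = (m + (n + 1)) + 1 := by ring
      rw [e, Function.iterate_succ_apply, Derivation.leibniz, smul_eq_mul, smul_eq_mul,
        iterate_add_elem]
      have h1 : (⇑D)^[m + (n + 1)] (g * D f) = 0 := by
        rw [mul_comm]
        exact ihm (n + 1) (D f) g (by rw [← Function.iterate_succ_apply]; exact hf) hg
      have h2 : (⇑D)^[m + (n + 1)] (f * D g) = 0 := by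
        have := ihn f (D g) hf (by rw [← Function.iterate_succ_apply]; exact hg)
        have e2 : m + 1 + n = m + (n + 1) := by ring
        rwa [e2] at this
      rw [h1, h2, add_zero]

end Lie

section Descend

variable {σ : Type}

/-- A derivation of the polynomial ring that preserves an ideal descends to the quotient. -/
noncomputable def descend (I : Ideal (MvPolynomial σ ℂ))
    (D : Derivation ℂ (MvPolynomial σ ℂ) (MvPolynomial σ ℂ)) (h : ∀ x ∈ I, D x ∈ I) :
    Derivation ℂ (MvPolynomial σ ℂ ⧸ I) (MvPolynomial σ ℂ ⧸ I) :=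
  Derivation.mk'
    { toFun := fun a => Quotient.liftOn' a (fun x => Ideal.Quotient.mk I (D x)) (by
        intro a b hab
        have hab' : a - b ∈ I := by
          have := (Submodule.quotientRel_def I).1 hab
          exact this
        rw [Ideal.Quotient.eq, ← map_sub]
        exact h _ hab')
      map_add' := by
        intro a b
        obtain ⟨x, rfl⟩ := Ideal.Quotient.mk_surjective a
        obtain ⟨y, rfl⟩ := Ideal.Quotient.mk_surjective b
        change Ideal.Quotient.mk I (D (x + y))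
          = Ideal.Quotient.mk I (D x) + Ideal.Quotient.mk I (D y)
        rw [map_add, map_add]
      map_smul' := by
        intro c a
        obtain ⟨x, rfl⟩ := Ideal.Quotient.mk_surjective a
        change Ideal.Quotient.mk I (D (c • x)) = c • Ideal.Quotient.mk I (D x)
        rw [Derivation.map_smul]
        rfl }
    (by
      intro a b
      obtain ⟨x, rfl⟩ := Ideal.Quotient.mk_surjective a
      obtain ⟨y, rfl⟩ := Ideal.Quotient.mk_surjective b
      change Ideal.Quotient.mk I (D (x * y))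
        = Ideal.Quotient.mk I x * Ideal.Quotient.mk I (D y)
          + Ideal.Quotient.mk I y * Ideal.Quotient.mk I (D x)
      rw [Derivation.leibniz, map_add, smul_eq_mul, smul_eq_mul, map_mul, map_mul])

lemma descend_mk (I : Ideal (MvPolynomial σ ℂ))
    (D : Derivation ℂ (MvPolynomial σ ℂ) (MvPolynomial σ ℂ)) (h : ∀ x ∈ I, D x ∈ I)
    (x : MvPolynomial σ ℂ) :
    descend I D h (Ideal.Quotient.mk I x) = Ideal.Quotient.mk I (D x) := rfl

lemma preserves_span {F : MvPolynomial σ ℂ}
    {D : Derivation ℂ (MvPolynomial σ ℂ) (MvPolynomial σ ℂ)} (h : D F = 0) :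
    ∀ x ∈ Ideal.span {F}, D x ∈ Ideal.span {F} := by
  intro x hx
  obtain ⟨c, rfl⟩ := Ideal.mem_span_singleton'.1 hx
  rw [Derivation.leibniz, h, smul_zero, zero_add, smul_eq_mul]
  exact Ideal.mul_mem_right _ _ (Ideal.mem_span_singleton_self F)

/-- derivations of a quotient of a polynomial ring agree if they agree on the variables -/
lemma der_ext {I : Ideal (MvPolynomial σ ℂ)}
    {D E : Derivation ℂ (MvPolynomial σ ℂ ⧸ I) (MvPolynomial σ ℂ ⧸ I)}
    (h : ∀ i, D (Ideal.Quotient.mk I (X i)) = E (Ideal.Quotient.mk I (X i))) : D = E := by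
  ext a
  obtain ⟨x, rfl⟩ := Ideal.Quotient.mk_surjective a
  induction x using MvPolynomial.induction_on with
  | C c =>
    have : Ideal.Quotient.mk I (C c) = algebraMap ℂ (MvPolynomial σ ℂ ⧸ I) c := rfl
    rw [this, Derivation.map_algebraMap, Derivation.map_algebraMap]
  | add p q hp hq => rw [map_add, map_add, map_add, hp, hq]
  | mul_X p i hp => rw [map_mul, Derivation.leibniz, Derivation.leibniz, hp, h i]

/-- values of a derivation from the values on the variables -/
lemma der_decomp {I : Ideal (MvPolynomial σ ℂ)} {ι : Type} [Fintype ι]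
    {D D1 D2 D3 : Derivation ℂ (MvPolynomial σ ℂ ⧸ I) (MvPolynomial σ ℂ ⧸ I)}
    {P : ι → Derivation ℂ (MvPolynomial σ ℂ ⧸ I) (MvPolynomial σ ℂ ⧸ I)}
    {k1 k2 k3 : MvPolynomial σ ℂ ⧸ I} {c : ι → MvPolynomial σ ℂ ⧸ I}
    (h : ∀ i, D (Ideal.Quotient.mk I (X i)) = k1 * D1 (Ideal.Quotient.mk I (X i))
      + k2 * D2 (Ideal.Quotient.mk I (X i)) + k3 * D3 (Ideal.Quotient.mk I (X i))
      + ∑ j, c j * P j (Ideal.Quotient.mk I (X i))) (a : MvPolynomial σ ℂ ⧸ I) :
    D a = k1 * D1 a + k2 * D2 a + k3 * D3 a + ∑ j, c j * P j a := by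
  obtain ⟨x, rfl⟩ := Ideal.Quotient.mk_surjective a
  induction x using MvPolynomial.induction_on with
  | C c =>
    have : Ideal.Quotient.mk I (C c) = algebraMap ℂ (MvPolynomial σ ℂ ⧸ I) c := rfl
    simp [this, Derivation.map_algebraMap]
  | add p q hp hq =>
    simp only [map_add, hp, hq, mul_add, Finset.sum_add_distrib]
    ring
  | mul_X p i hp =>
    simp only [map_mul, Derivation.leibniz, hp, h i, smul_eq_mul, mul_add, Finset.mul_sum]
    have e1 : ∀ j, c j * (Ideal.Quotient.mk I p * P j (Ideal.Quotient.mk I (X i)))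
        = Ideal.Quotient.mk I p * (c j * P j (Ideal.Quotient.mk I (X i))) := by
      intro j; ring
    have e2 : ∀ j, c j * (Ideal.Quotient.mk I (X i) * P j (Ideal.Quotient.mk I p))
        = Ideal.Quotient.mk I (X i) * (c j * P j (Ideal.Quotient.mk I p)) := by
      intro j; ring
    simp only [Finset.sum_add_distrib, e1, e2]
    ring

lemma isLND_of_gen {I : Ideal (MvPolynomial σ ℂ)}
    {D : Derivation ℂ (MvPolynomial σ ℂ ⧸ I) (MvPolynomial σ ℂ ⧸ I)}
    (h : ∀ i, ∃ k : ℕ, (⇑D)^[k] (Ideal.Quotient.mk I (X i)) = 0) : IsLND D := by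
  have key : ∀ f, ∃ k : ℕ, (⇑D)^[k] f = 0 := by
    intro a
    obtain ⟨x, rfl⟩ := Ideal.Quotient.mk_surjective a
    induction x using MvPolynomial.induction_on with
    | C c =>
      refine ⟨1, ?_⟩
      have : Ideal.Quotient.mk I (C c) = algebraMap ℂ (MvPolynomial σ ℂ ⧸ I) c := rfl
      rw [this, Function.iterate_one, Derivation.map_algebraMap]
    | add p q hp hq =>
      obtain ⟨m, hm⟩ := hp
      obtain ⟨n, hn⟩ := hq
      refine ⟨max m n, ?_⟩
      rw [map_add, iterate_add_elem, iterate_zero_of_le D hm (le_max_left _ _),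
        iterate_zero_of_le D hn (le_max_right _ _), add_zero]
    | mul_X p i hp =>
      obtain ⟨m, hm⟩ := hp
      obtain ⟨n, hn⟩ := h i
      refine ⟨m + n, ?_⟩
      rw [map_mul]
      exact iterate_mul_zero D m n _ _ hm hn
  intro f
  obtain ⟨k, hk⟩ := key f
  exact ⟨k + 1, by omega, iterate_zero_of_le D hk (by omega)⟩

/-- If `D` is the partial derivative along `X k` and `Θ` kills `X k`, then all multiples of `Θ`
are in the overshear Lie algebra. -/
lemma smul_mem_of_pderiv {I : Ideal (MvPolynomial σ ℂ)} (k : σ)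
    (hI : ∀ x ∈ I, pderiv k x ∈ I)
    {Θ : Derivation ℂ (MvPolynomial σ ℂ ⧸ I) (MvPolynomial σ ℂ ⧸ I)} (hΘ : IsLND Θ)
    (hk : Θ (Ideal.Quotient.mk I (X k)) = 0) (g : MvPolynomial σ ℂ ⧸ I) :
    g • Θ ∈ overshearLie (MvPolynomial σ ℂ ⧸ I) := by
  classical
  set D := descend I (pderiv k) hI with hDdef
  have hD : IsLND D := by
    refine isLND_of_gen fun i => ⟨2, ?_⟩
    rw [Function.iterate_succ_apply, Function.iterate_one, hDdef, descend_mk, descend_mk,
      pderiv_X, Pi.single_apply]
    split_ifs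
    · rw [show (1 : MvPolynomial σ ℂ) = C 1 by simp, pderiv_C, map_zero]
    · rw [map_zero, map_zero]
  have hDX : D (Ideal.Quotient.mk I (X k)) = 1 := by
    rw [hDdef, descend_mk, pderiv_X_self, map_one]
  obtain ⟨x, rfl⟩ := Ideal.Quotient.mk_surjective g
  induction x using MvPolynomial.induction_on' with
  | monomial d c =>
    have e1 : (monomial d c : MvPolynomial σ ℂ) = monomial (d.erase k) c * X k ^ (d k) := by
      rw [← monomial_add_single]
      congr 1
      rw [Finsupp.erase_add_single]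
    have h1 : D (Ideal.Quotient.mk I (monomial (d.erase k) c)) = 0 := by
      rw [hDdef, descend_mk, pderiv_monomial]
      simp
    have h2 : Θ (Ideal.Quotient.mk I (X k ^ (d k))) = 0 := by
      rw [map_pow, Derivation.leibniz_pow, hk]
      simp
    have h4 : D (D (Ideal.Quotient.mk I (X k))) = 0 := by
      rw [hDX]; exact Derivation.map_one_eq_zero D
    have := mem_key hD hΘ h1 h2 hk h4
    rw [hDX, mul_one, ← map_mul, ← e1] at this
    exact this
  | add p q hp hq =>
    rw [map_add, add_smul]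
    exact add_mem hp hq

end Descend

end Pool.Agent.Lib.MP_563419_an
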