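import Mathlib
open Complex

namespace Pool.Agent.Lib.MP_563419_an

/-- continuous logarithms on simply connected spaces -/
lemma exists_log {A : Type} [TopologicalSpace A] [SimplyConnectedSpace A]
    [LocallyPathConnectedSpace A] (g : A → ℂ) (hg : Continuous g) (h0 : ∀ a, g a ≠ 0) (a₀ : A) :
    ∃ f : A → ℂ, Continuous f ∧ ∀ a, Complex.exp (f a) = g a := by
  obtain ⟨F, ⟨-, hF⟩, -⟩ := isCoveringMapOn_exp.existsUnique_continuousMap_lifts
    (⟨g, hg⟩ : C(A, ℂ)) (a₀ := a₀) (e₀ := Complex.log (g a₀)) (Complex.exp_log (h0 a₀))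
    (fun a => h0 a)
  exact ⟨F, F.continuous, fun a => congrFun hF a⟩

/-- A nowhere zero continuous function on `ℂ` cannot have `ζ g(ζ)` close to a nonzero constant on
a circle. -/
lemma no_winding {g : ℂ → ℂ} (hg : Continuous g) (h0 : ∀ z, g z ≠ 0) {h : ℂ}
    {R : ℝ} (hR : 0 < R) (hc : ∀ ζ : ℂ, ‖ζ‖ = R → 0 < (ζ * g ζ * (starRingEnd ℂ) h).re) : False := by
  obtain ⟨f, hf, hfg⟩ := exists_log g hg h0 0
  set ζ : ℝ → ℂ := fun θ => (R : ℂ) * Complex.exp (θ * I) with hζ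
  have hζc : Continuous ζ := by rw [hζ]; fun_prop
  have hζn : ∀ θ, ‖ζ θ‖ = R := by
    intro θ
    simp only [hζ, norm_mul, Complex.norm_real, Real.norm_eq_abs, abs_of_pos hR,
      Complex.norm_exp_ofReal_mul_I, mul_one]
  set k : ℝ → ℝ := fun θ => θ + (f (ζ θ)).im - h.arg with hk
  have hkc : Continuous k := by rw [hk]; fun_prop
  have hcos : ∀ θ, 0 < Real.cos (k θ) := by
    intro θ
    have h1 := hc (ζ θ) (hζn θ)
    have hh : (starRingEnd ℂ) h = (‖h‖ : ℂ) * Complex.exp (-(h.arg : ℂ) * I) := by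
      conv_lhs => rw [← Complex.norm_mul_exp_arg_mul_I h]
      rw [map_mul, Complex.conj_ofReal, ← Complex.exp_conj, map_mul, Complex.conj_ofReal,
        Complex.conj_I]
      ring_nf
    have h2 : ζ θ * g (ζ θ) * (starRingEnd ℂ) h
        = ((R * Real.exp (f (ζ θ)).re * ‖h‖ : ℝ) : ℂ) * Complex.exp ((k θ : ℝ) * I) := by
      rw [← hfg, hh]
      have e1 : Complex.exp (f (ζ θ)) = (Real.exp (f (ζ θ)).re : ℂ)
          * Complex.exp ((f (ζ θ)).im * I) := by
        conv_lhs => rw [← Complex.re_add_im (f (ζ θ)), Complex.exp_add]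
        push_cast
        rfl
      rw [e1]
      have e2 : Complex.exp ((k θ : ℝ) * I) = Complex.exp (θ * I)
          * Complex.exp ((f (ζ θ)).im * I) * Complex.exp (-(h.arg : ℂ) * I) := by
        rw [← Complex.exp_add, ← Complex.exp_add]
        congr 1
        simp only [hk]
        push_cast
        ring
      rw [e2]
      simp only [hζ]
      push_cast
      ring
    rw [h2, Complex.re_ofReal_mul, Complex.exp_ofReal_mul_I_re] at h1
    have h3 : 0 ≤ R * Real.exp (f (ζ θ)).re * ‖h‖ := by positivity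
    by_contra hneg
    push Not at hneg
    have := mul_nonpos_of_nonneg_of_nonpos h3 hneg
    linarith
  have hper : k (2 * Real.pi) = k 0 + 2 * Real.pi := by
    have : ζ (2 * Real.pi) = ζ 0 := by
      simp only [hζ]
      push_cast
      rw [Complex.exp_two_pi_mul_I]
      simp
    simp only [hk, this]
    ring
  have hpi := Real.pi_pos
  have hmem : k 0 + Real.pi ∈ Set.Icc (k 0) (k (2 * Real.pi)) := by
    rw [hper]; constructor <;> linarith
  obtain ⟨θ, -, hθ⟩ := intermediate_value_Icc (by positivity : (0 : ℝ) ≤ 2 * Real.pi)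
    hkc.continuousOn hmem
  have h1 := hcos θ
  rw [hθ, Real.cos_add_pi] at h1
  have h2 := hcos 0
  linarith

/-- the action of the matrix `[[u0, u1], [u2, 1 - u0]]` on `ℂ²` -/
noncomputable def ap (u : Fin 3 → ℂ) (w : ℂ × ℂ) : ℂ × ℂ :=
  (u 0 * w.1 + u 1 * w.2, u 2 * w.1 + (1 - u 0) * w.2)

lemma ap_idem {u : Fin 3 → ℂ} (h : u 0 * (1 - u 0) = u 1 * u 2) (w : ℂ × ℂ) :
    ap u (ap u w) = ap u w := by
  unfold ap
  ext
  · simp only
    linear_combination (-w.1) * h
  · simp only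
    linear_combination (-w.2) * h

lemma ap_ne {u u' : Fin 3 → ℂ} (h : ∀ i, ‖u i - u' i‖ < 1 / 4) {w : ℂ × ℂ} (hw : ap u w = w)
    (hw0 : w ≠ 0) : ap u' w ≠ 0 := by
  intro h0
  have e1 : w.1 = (u 0 - u' 0) * w.1 + (u 1 - u' 1) * w.2 := by
    have a := congrArg Prod.fst hw
    have b := congrArg Prod.fst h0
    simp only [ap, Prod.fst_zero] at a b
    linear_combination b - a
  have e2 : w.2 = (u 2 - u' 2) * w.1 - (u 0 - u' 0) * w.2 := by
    have a := congrArg Prod.snd hw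
    have b := congrArg Prod.snd h0
    simp only [ap, Prod.snd_zero] at a b
    linear_combination b - a
  set N := ‖w.1‖ + ‖w.2‖ with hN
  have n1 : ‖w.1‖ ≤ 1 / 4 * N := by
    calc ‖w.1‖ = ‖(u 0 - u' 0) * w.1 + (u 1 - u' 1) * w.2‖ := by rw [← e1]
      _ ≤ ‖u 0 - u' 0‖ * ‖w.1‖ + ‖u 1 - u' 1‖ * ‖w.2‖ := by
        refine (norm_add_le _ _).trans ?_
        rw [norm_mul, norm_mul]
      _ ≤ 1 / 4 * ‖w.1‖ + 1 / 4 * ‖w.2‖ := by
        have := (h 0).le
        have := (h 1).le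
        gcongr
      _ = 1 / 4 * N := by rw [hN]; ring
  have n2 : ‖w.2‖ ≤ 1 / 4 * N := by
    calc ‖w.2‖ = ‖(u 2 - u' 2) * w.1 - (u 0 - u' 0) * w.2‖ := by rw [← e2]
      _ ≤ ‖u 2 - u' 2‖ * ‖w.1‖ + ‖u 0 - u' 0‖ * ‖w.2‖ := by
        refine (norm_sub_le _ _).trans ?_
        rw [norm_mul, norm_mul]
      _ ≤ 1 / 4 * ‖w.1‖ + 1 / 4 * ‖w.2‖ := by
        have := (h 2).le
        have := (h 0).le
        gcongr
      _ = 1 / 4 * N := by rw [hN]; ring
  have n3 : N ≤ 0 := by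
    have : N ≤ 1 / 4 * N + 1 / 4 * N := by
      calc N = ‖w.1‖ + ‖w.2‖ := hN
        _ ≤ _ := add_le_add n1 n2
    linarith
  apply hw0
  have h1 : ‖w.1‖ = 0 := le_antisymm (by linarith [norm_nonneg w.2]) (norm_nonneg _)
  have h2 : ‖w.2‖ = 0 := le_antisymm (by linarith [norm_nonneg w.1]) (norm_nonneg _)
  ext
  · simpa using h1
  · simpa using h2

/-- There is no continuous retraction of `ℂ³` onto the affine quadric `p (1 - p) = q r`. -/
theorem no_retraction {F : (Fin 3 → ℂ) → (Fin 3 → ℂ)} (hF : Continuous F)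
    (hQ : ∀ v, F v 0 * (1 - F v 0) = F v 1 * F v 2)
    (hid : ∀ v, v 0 * (1 - v 0) = v 1 * v 2 → F v = v) : False := by
  set K : Set (Fin 3 → ℂ) := Metric.closedBall 0 1 with hK
  have hKc : IsCompact K := isCompact_closedBall 0 1
  have huc := hKc.uniformContinuousOn_of_continuous hF.continuousOn
  rw [Metric.uniformContinuousOn_iff] at huc
  obtain ⟨δ, hδ, huc⟩ := huc (1 / 4) (by norm_num)
  obtain ⟨n, hn⟩ := exists_nat_gt (1 / δ)
  have hn0 : (0 : ℝ) < n := lt_trans (by positivity) hn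
  -- starting vector
  obtain ⟨w0, hw0, hw0f⟩ : ∃ w0 : ℂ × ℂ, w0 ≠ 0 ∧ ap (F 0) w0 = w0 := by
    by_cases h : F 0 0 = 0
    · refine ⟨ap (F 0) (0, 1), ?_, ap_idem (hQ 0) _⟩
      intro h0
      have := congrArg Prod.snd h0
      simp [ap, h] at this
    · refine ⟨ap (F 0) (1, 0), ?_, ap_idem (hQ 0) _⟩
      intro h0
      have := congrArg Prod.fst h0
      simp [ap, h] at this
  set S : ℕ → (Fin 3 → ℂ) → ℂ × ℂ := fun k => Nat.rec (fun _ => w0)
    (fun k Sk v => ap (F ((((k : ℝ) + 1) / n : ℝ) • v)) (Sk v)) k with hS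
  have hS0 : ∀ v, S 0 v = w0 := fun v => rfl
  have hSs : ∀ k v, S (k + 1) v = ap (F ((((k : ℝ) + 1) / n : ℝ) • v)) (S k v) := fun k v => rfl
  have hap : Continuous (fun q : (Fin 3 → ℂ) × (ℂ × ℂ) => ap q.1 q.2) := by
    unfold ap; fun_prop
  have hScont : ∀ k, Continuous (S k) := by
    intro k
    induction k with
    | zero => exact continuous_const
    | succ k ih =>
      have : S (k + 1) = fun v => ap (F ((((k : ℝ) + 1) / n : ℝ) • v)) (S k v) := by
        funext v; exact hSs k v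
      rw [this]
      exact hap.comp ((hF.comp (continuous_const_smul _)).prodMk ih)
  have hSprop : ∀ k : ℕ, k ≤ n → ∀ v ∈ K, S k v ≠ 0 ∧ ap (F (((k : ℝ) / n : ℝ) • v)) (S k v) = S k v := by
    intro k
    induction k with
    | zero =>
      intro _ v _
      refine ⟨hw0, ?_⟩
      simpa [hS0] using hw0f
    | succ k ih =>
      intro hk v hv
      obtain ⟨i1, i2⟩ := ih (by omega) v hv
      have hkn : ((k : ℝ) + 1) ≤ n := by exact_mod_cast hk
      have hv1 : ‖v‖ ≤ 1 := by simpa [hK] using hv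
      have m1 : (((k : ℝ) / n : ℝ) • v) ∈ K := by
        rw [hK, mem_closedBall_zero_iff, norm_smul, Real.norm_eq_abs, abs_of_nonneg (by positivity)]
        have : (k : ℝ) / n ≤ 1 := by rw [div_le_one hn0]; linarith
        calc (k : ℝ) / n * ‖v‖ ≤ 1 * 1 := by gcongr
          _ = 1 := one_mul 1
      have m2 : ((((k : ℝ) + 1) / n : ℝ) • v) ∈ K := by
        rw [hK, mem_closedBall_zero_iff, norm_smul, Real.norm_eq_abs, abs_of_nonneg (by positivity)]
        have : ((k : ℝ) + 1) / n ≤ 1 := by rw [div_le_one hn0]; exact hkn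
        calc ((k : ℝ) + 1) / n * ‖v‖ ≤ 1 * 1 := by gcongr
          _ = 1 := one_mul 1
      have hd : dist (((k : ℝ) / n : ℝ) • v) ((((k : ℝ) + 1) / n : ℝ) • v) < δ := by
        rw [dist_eq_norm, ← sub_smul, norm_smul]
        have e : (k : ℝ) / n - ((k : ℝ) + 1) / n = -(1 / n) := by ring
        rw [e, norm_neg, Real.norm_eq_abs, abs_of_nonneg (by positivity)]
        have h1 : 1 / (n : ℝ) < δ := by
          rw [div_lt_iff₀ hn0]
          rw [div_lt_iff₀ hδ] at hn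
          linarith
        calc 1 / (n : ℝ) * ‖v‖ ≤ 1 / (n : ℝ) * 1 := by gcongr
          _ < δ := by simpa using h1
      have hF4 := huc _ m1 _ m2 hd
      have hcomp : ∀ i, ‖F (((k : ℝ) / n : ℝ) • v) i - F ((((k : ℝ) + 1) / n : ℝ) • v) i‖ < 1 / 4 := by
        intro i
        rw [dist_eq_norm] at hF4
        exact (norm_le_pi_norm (F (((k : ℝ) / n : ℝ) • v) - F ((((k : ℝ) + 1) / n : ℝ) • v)) i).trans_lt
          hF4
      rw [hSs]
      refine ⟨ap_ne hcomp i2 i1, ?_⟩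
      have e : (((k + 1 : ℕ) : ℝ) / n) = ((k : ℝ) + 1) / n := by push_cast; ring
      rw [e]
      exact ap_idem (hQ _) _
  set s : (Fin 3 → ℂ) → ℂ × ℂ := S n with hs
  have hscont : Continuous s := hScont n
  have hsprop : ∀ v ∈ K, s v ≠ 0 ∧ ap (F v) (s v) = s v := by
    intro v hv
    have := hSprop n le_rfl v hv
    rwa [div_self hn0.ne', one_smul] at this
  -- the sphere
  set c : ℂ → ℝ := fun ζ => (1 + ‖ζ‖ ^ 2)⁻¹ with hc
  set vv : ℂ → (Fin 3 → ℂ) := fun ζ => ![(c ζ : ℂ), (c ζ : ℂ) * (starRingEnd ℂ) ζ, (c ζ : ℂ) * ζ]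
    with hvv
  have hcpos : ∀ ζ, 0 < c ζ := fun ζ => by simp only [hc]; positivity
  have hc1 : ∀ ζ, c ζ ≤ 1 := fun ζ => by
    simp only [hc]
    exact inv_le_one_of_one_le₀ (by nlinarith [sq_nonneg ‖ζ‖])
  have hcz : ∀ ζ : ℂ, c ζ * ‖ζ‖ ≤ 1 := fun ζ => by
    simp only [hc]
    rw [inv_mul_le_iff₀ (by positivity)]
    nlinarith [sq_nonneg (‖ζ‖ - 1), norm_nonneg ζ]
  have hccont : Continuous c := by
    simp only [hc]
    refine Continuous.inv₀ (by fun_prop) ?_
    intro ζ; positivity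
  have hvvcont : Continuous vv := by
    rw [hvv]
    refine continuous_pi fun i => ?_
    fin_cases i
    · exact Complex.continuous_ofReal.comp hccont
    · exact (Complex.continuous_ofReal.comp hccont).mul Complex.continuous_conj
    · exact (Complex.continuous_ofReal.comp hccont).mul continuous_id
  have hvvQ : ∀ ζ, vv ζ 0 * (1 - vv ζ 0) = vv ζ 1 * vv ζ 2 := by
    intro ζ
    simp only [hvv, Matrix.cons_val_zero, Matrix.cons_val_one, Matrix.cons_val]
    have h1 : (starRingEnd ℂ) ζ * ζ = ((‖ζ‖ ^ 2 : ℝ) : ℂ) := by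
      rw [Complex.conj_mul']; push_cast; ring
    have h2 : (c ζ : ℂ) * (1 + ((‖ζ‖ ^ 2 : ℝ) : ℂ)) = 1 := by
      have : c ζ * (1 + ‖ζ‖ ^ 2) = 1 := by
        simp only [hc]; exact inv_mul_cancel₀ (by positivity)
      exact_mod_cast this
    linear_combination (c ζ : ℂ) ^ 2 * (-h1) - (c ζ : ℂ) * h2
  have hvvK : ∀ ζ, vv ζ ∈ K := by
    intro ζ
    rw [hK, mem_closedBall_zero_iff, pi_norm_le_iff_of_nonneg zero_le_one]
    intro i
    fin_cases i
    · simp only [hvv]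
      change ‖(c ζ : ℂ)‖ ≤ 1
      rw [Complex.norm_real, Real.norm_eq_abs, abs_of_pos (hcpos ζ)]
      exact hc1 ζ
    · change ‖(c ζ : ℂ) * (starRingEnd ℂ) ζ‖ ≤ 1
      rw [norm_mul, RCLike.norm_conj, Complex.norm_real, Real.norm_eq_abs, abs_of_pos (hcpos ζ)]
      exact hcz ζ
    · change ‖(c ζ : ℂ) * ζ‖ ≤ 1
      rw [norm_mul, Complex.norm_real, Real.norm_eq_abs, abs_of_pos (hcpos ζ)]
      exact hcz ζ
  set g : ℂ → ℂ := fun ζ => (s (vv ζ)).1 with hg
  have hgcont : Continuous g := (continuous_fst.comp hscont).comp hvvcont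
  have hs2 : ∀ ζ, (s (vv ζ)).2 = ζ * g ζ := by
    intro ζ
    obtain ⟨-, h2⟩ := hsprop _ (hvvK ζ)
    rw [hid _ (hvvQ ζ)] at h2
    have a1 := congrArg Prod.fst h2
    have a2 := congrArg Prod.snd h2
    simp only [ap, hvv, Matrix.cons_val_zero, Matrix.cons_val_one, Matrix.cons_val] at a1 a2
    have h1 : (starRingEnd ℂ) ζ * ζ = ((‖ζ‖ ^ 2 : ℝ) : ℂ) := by
      rw [Complex.conj_mul']; push_cast; ring
    have h2 : (c ζ : ℂ) * (1 + ((‖ζ‖ ^ 2 : ℝ) : ℂ)) = 1 := by
      have : c ζ * (1 + ‖ζ‖ ^ 2) = 1 := by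
        simp only [hc]; exact inv_mul_cancel₀ (by positivity)
      exact_mod_cast this
    simp only [hg, hvv]
    linear_combination ζ * a1 - a2 - (c ζ : ℂ) * (s ![(c ζ : ℂ), (c ζ : ℂ) * (starRingEnd ℂ) ζ, (c ζ : ℂ) * ζ]).2 * h1
      - (s ![(c ζ : ℂ), (c ζ : ℂ) * (starRingEnd ℂ) ζ, (c ζ : ℂ) * ζ]).2 * h2
  have hg0 : ∀ ζ, g ζ ≠ 0 := by
    intro ζ h0
    obtain ⟨h1, -⟩ := hsprop _ (hvvK ζ)
    apply h1
    ext
    · exact h0
    · rw [hs2, h0, mul_zero]; rfl
  -- behaviour at infinity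
  have h0K : (0 : Fin 3 → ℂ) ∈ K := by simp [hK]
  have hF0 : F 0 = 0 := hid 0 (by simp)
  obtain ⟨s01, s02⟩ := hsprop 0 h0K
  set h := (s 0).2 with hh
  have hh0 : h ≠ 0 := by
    intro h0
    apply s01
    rw [hF0] at s02
    have a1 := congrArg Prod.fst s02
    simp [ap] at a1
    ext
    · exact a1.symm
    · exact h0
  have hvlim : Filter.Tendsto vv (Filter.cocompact ℂ) (nhds 0) := by
    have hclim : Filter.Tendsto (fun ζ : ℂ => c ζ * (‖ζ‖ + 1)) (Filter.cocompact ℂ) (nhds 0) := by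
      have h1 : Filter.Tendsto (fun ζ : ℂ => ‖ζ‖) (Filter.cocompact ℂ) Filter.atTop :=
        tendsto_norm_cocompact_atTop
      have h2 : Filter.Tendsto (fun t : ℝ => (1 + t ^ 2)⁻¹ * (t + 1)) Filter.atTop (nhds 0) := by
        have h3 : Filter.Tendsto (fun t : ℝ => 2 * t⁻¹) Filter.atTop (nhds 0) := by
          simpa using tendsto_inv_atTop_zero.const_mul (2 : ℝ)
        refine squeeze_zero' (Filter.eventually_atTop.2 ⟨0, fun t ht => by positivity⟩) ?_ h3
        refine Filter.eventually_atTop.2 ⟨1, fun t ht => ?_⟩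
        rw [inv_mul_le_iff₀ (by positivity)]
        have h4 : (1 + t ^ 2) * (2 * t⁻¹) = 2 * t⁻¹ + 2 * t := by
          have : t ≠ 0 := by linarith
          field_simp
        rw [h4]
        have : 0 ≤ t⁻¹ := by positivity
        linarith
      exact h2.comp h1
    rw [tendsto_zero_iff_norm_tendsto_zero]
    refine squeeze_zero (fun _ => norm_nonneg _) ?_ hclim
    intro ζ
    have hnn : 0 ≤ c ζ * (‖ζ‖ + 1) := by have := hcpos ζ; positivity
    rw [pi_norm_le_iff_of_nonneg hnn]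
    intro i
    have hcp := (hcpos ζ).le
    fin_cases i
    · change ‖(c ζ : ℂ)‖ ≤ _
      rw [Complex.norm_real, Real.norm_eq_abs, abs_of_pos (hcpos ζ)]
      nlinarith [norm_nonneg ζ]
    · change ‖(c ζ : ℂ) * (starRingEnd ℂ) ζ‖ ≤ _
      rw [norm_mul, RCLike.norm_conj, Complex.norm_real, Real.norm_eq_abs, abs_of_pos (hcpos ζ)]
      nlinarith [norm_nonneg ζ]
    · change ‖(c ζ : ℂ) * ζ‖ ≤ _
      rw [norm_mul, Complex.norm_real, Real.norm_eq_abs, abs_of_pos (hcpos ζ)]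
      nlinarith [norm_nonneg ζ]
  have hlim : Filter.Tendsto (fun ζ => ζ * g ζ) (Filter.cocompact ℂ) (nhds h) := by
    have h1 : Filter.Tendsto (fun ζ => (s (vv ζ)).2) (Filter.cocompact ℂ) (nhds (s 0).2) :=
      ((continuous_snd.comp hscont).tendsto 0).comp hvlim
    refine h1.congr fun ζ => hs2 ζ
  have hre : ∀ᶠ ζ in Filter.cocompact ℂ, 0 < (ζ * g ζ * (starRingEnd ℂ) h).re := by
    have h1 : Filter.Tendsto (fun ζ => (ζ * g ζ * (starRingEnd ℂ) h).re) (Filter.cocompact ℂ)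
        (nhds ((h * (starRingEnd ℂ) h).re)) :=
      (Complex.continuous_re.tendsto _).comp (hlim.mul_const _)
    have h2 : 0 < (h * (starRingEnd ℂ) h).re := by
      rw [Complex.mul_conj, Complex.ofReal_re]
      exact Complex.normSq_pos.2 hh0
    exact h1.eventually (lt_mem_nhds h2)
  rw [Filter.hasBasis_cocompact.eventually_iff] at hre
  obtain ⟨C, hC, hre⟩ := hre
  obtain ⟨R, hR⟩ := hC.isBounded.subset_closedBall (0 : ℂ)
  have hRpos : 0 < max R 0 + 1 := by positivity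
  refine no_winding hgcont hg0 (h := h) hRpos ?_
  intro ζ hζ
  refine hre ?_
  intro hζC
  have h1 := hR hζC
  rw [mem_closedBall_zero_iff] at h1
  have := le_max_left R 0
  linarith

end Pool.Agent.Lib.MP_563419_an
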