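import Mathlib
open Complex

namespace Pool.Agent.Lib.MP_563419_an

variable {σ : Type} [Fintype σ]

lemma fderiv_apply_eq {Φ : (σ → ℂ) → (σ → ℂ)} (hΦ : Differentiable ℂ Φ) (p e : σ → ℂ) (i : σ) :
    (fderiv ℂ Φ p e) i = deriv (fun ζ : ℂ => Φ (p + ζ • e) i) 0 := by
  have h1 : HasDerivAt (fun ζ : ℂ => p + ζ • e) e 0 := by
    have := ((hasDerivAt_id (0 : ℂ)).smul_const e).const_add p
    simpa using this
  have h2 : HasFDerivAt Φ (fderiv ℂ Φ p) (p + (0 : ℂ) • e) := by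
    have : p + (0 : ℂ) • e = p := by simp
    rw [this]
    exact (hΦ p).hasFDerivAt
  have h3 := h2.comp_hasDerivAt (0 : ℂ) h1
  exact ((hasDerivAt_pi.1 h3 i).deriv).symm

lemma continuous_partial {Φ : (σ → ℂ) → (σ → ℂ)} (hΦ : Differentiable ℂ Φ) (e : σ → ℂ) (i : σ) :
    Continuous fun p => (fderiv ℂ Φ p e) i := by
  have h1 : ∀ p, (fderiv ℂ Φ p e) i
      = (2 * Real.pi * I : ℂ)⁻¹ * ∮ z in C(0, 1), (1 / (z - 0) ^ 2) • Φ (p + z • e) i := by
    intro p
    rw [fderiv_apply_eq hΦ]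
    have hd : Differentiable ℂ (fun ζ : ℂ => Φ (p + ζ • e) i) := by
      have h2 : Differentiable ℂ (fun ζ : ℂ => p + ζ • e) := by fun_prop
      exact (differentiable_pi.1 (hΦ.comp h2)) i
    rw [hd.differentiableOn.deriv_eq_smul_circleIntegral one_pos, smul_eq_mul, ← mul_assoc,
      inv_mul_cancel₀ Complex.two_pi_I_ne_zero, one_mul]
  simp only [h1]
  refine Continuous.mul continuous_const ?_
  simp only [circleIntegral]
  refine intervalIntegral.continuous_parametric_intervalIntegral_of_continuous' ?_ _ _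
  have h3 : Continuous fun q : (σ → ℂ) × ℝ => Φ (q.1 + circleMap 0 1 q.2 • e) i := by
    have h4 : Continuous fun q : (σ → ℂ) × ℝ => q.1 + circleMap 0 1 q.2 • e := by fun_prop
    exact (continuous_apply i).comp (hΦ.continuous.comp h4)
  change Continuous fun q : (σ → ℂ) × ℝ => deriv (circleMap 0 1) q.2
    * ((1 / (circleMap 0 1 q.2 - 0) ^ 2) * Φ (q.1 + circleMap 0 1 q.2 • e) i)
  refine Continuous.mul ?_ (Continuous.mul ?_ h3)
  · have : ∀ θ : ℝ, deriv (circleMap 0 1) θ = circleMap 0 1 θ * I := fun θ => by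
      rw [deriv_circleMap]
    simp only [this]
    fun_prop
  · refine Continuous.div continuous_const (by fun_prop) ?_
    intro q
    simp only [sub_zero]
    exact pow_ne_zero 2 (circleMap_ne_center one_ne_zero)

/-- Jacobian determinant -/
noncomputable def jac [DecidableEq σ] (Φ : (σ → ℂ) → (σ → ℂ)) (p : σ → ℂ) : ℂ :=
  Matrix.det (LinearMap.toMatrix' (fderiv ℂ Φ p).toLinearMap)

lemma jac_continuous [DecidableEq σ] {Φ : (σ → ℂ) → (σ → ℂ)} (hΦ : Differentiable ℂ Φ) :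
    Continuous (jac Φ) := by
  unfold jac
  refine Continuous.matrix_det ?_
  refine continuous_matrix fun i j => ?_
  simp only [LinearMap.toMatrix'_apply]
  exact continuous_partial hΦ _ i

lemma jac_ne_zero [DecidableEq σ] {Φ Ψ : (σ → ℂ) → (σ → ℂ)} (hΦ : Differentiable ℂ Φ)
    (hΨ : Differentiable ℂ Ψ) (h : ∀ p, Ψ (Φ p) = p) (p : σ → ℂ) : jac Φ p ≠ 0 := by
  have h1 : fderiv ℂ (Ψ ∘ Φ) p = (fderiv ℂ Ψ (Φ p)).comp (fderiv ℂ Φ p) :=
    fderiv_comp p (hΨ _) (hΦ _)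
  have h2 : Ψ ∘ Φ = id := funext h
  rw [h2, fderiv_id] at h1
  have h3 : (LinearMap.id : (σ → ℂ) →ₗ[ℂ] (σ → ℂ))
      = (fderiv ℂ Ψ (Φ p)).toLinearMap.comp (fderiv ℂ Φ p).toLinearMap := by
    ext1 i
    ext j
    have := congrArg (fun L : (σ → ℂ) →L[ℂ] (σ → ℂ) => L (Pi.single i 1) j) h1
    simpa using this
  have h4 := congrArg (fun L => Matrix.det (LinearMap.toMatrix' L)) h3
  simp only [LinearMap.toMatrix'_id, LinearMap.toMatrix'_comp, Matrix.det_one,
    Matrix.det_mul] at h4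
  intro h0
  unfold jac at h0
  rw [h0, mul_zero] at h4
  exact one_ne_zero h4

end Pool.Agent.Lib.MP_563419_an
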